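import Pool.Agent.Y520.MS.Real

/-!
# Functions of several variables which preserve multiplier sequences

Q1 (two variables, nonnegative terms) together with: any number of variables; admissibility in
each variable separately and for a small class of test sequences suffices; all real multiplier
sequences.
-/

set_option autoImplicit false

namespace Pool.Agent.Results.MP_b13872_an.SeveralVariables

open Pool.Agent.Helper771.MultSeq Pool.Agent.Y520.MS

/-- (1) Q1: `Ψ(x,y)` is admissible if and only if `Ψ(x,y) = c x^m y^n` for `x, y ≥ 0`.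
(2) For every number `n` of variables, `Ψ` is admissible if and only if it is a monomial
`c ∏ x_i^{m_i}` for nonnegative arguments; and this already follows if `Ψ` is admissible in each
variable separately (the others frozen) for the test sequences `(a + b k) r^k` and
`(x, y, 0, 0, ...)`.
(3) For every `n`, termwise application of `Ψ` to all real multiplier sequences (any signs) gives
multiplier sequences if and only if `Ψ(x) = ± c ∏ |x_i|^{m_i}` for all real `x`, where the sign is
an arbitrary function of the signs of the variables which occur (`m_i ≠ 0`). -/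
theorem result :
    (∀ Ψ : ℝ × ℝ → ℝ, Admissible Ψ ↔
      ∃ (c : ℝ) (m n : ℕ), ∀ x y : ℝ, 0 ≤ x → 0 ≤ y → Ψ (x, y) = c * x ^ m * y ^ n) ∧
    (∀ (n : ℕ) (Ψ : (Fin n → ℝ) → ℝ),
      (AdmissibleN Ψ ↔ ∃ (c : ℝ) (m : Fin n → ℕ), ∀ x : Fin n → ℝ, (∀ i, 0 ≤ x i) →
        Ψ x = c * ∏ i, x i ^ m i) ∧
      (AdmissibleSep Ψ ↔ ∃ (c : ℝ) (m : Fin n → ℕ), ∀ x : Fin n → ℝ, (∀ i, 0 ≤ x i) →
        Ψ x = c * ∏ i, x i ^ m i)) ∧
    ∀ (n : ℕ) (Ψ : (Fin n → ℝ) → ℝ), AdmissibleR Ψ ↔
      ∃ (c : ℝ) (m : Fin n → ℕ) (σ : (Fin n → Bool) → Bool),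
        (∀ s s' : Fin n → Bool, (∀ i, m i ≠ 0 → s i = s' i) → σ s = σ s') ∧
        ∀ x : Fin n → ℝ, Ψ x =
          c * (if σ (fun i => decide (x i < 0)) then (-1 : ℝ) else 1) * ∏ i, |x i| ^ m i :=
  ⟨classification, fun _ Ψ => ⟨classifyN Ψ, classifySep Ψ⟩, fun _ Ψ => classifyR Ψ⟩

end Pool.Agent.Results.MP_b13872_an.SeveralVariables
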